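import Pool.Agent.KS6_42.BF.Ind

/-!
# Equivalent forms from two integers of consecutive norms

Let `μ`, `ν` be integers of norm `-m` and `-(m + 1)` which are positive and satisfy
`Tr μ ≡ 1` modulo `m` and `Tr ν ≡ -1` modulo `m + 1`. Then `α = μ ν` and `β = -μ ν'` are an
admissible pair, and `Q_{β,m}(x, y) = Q_{α,m}(ν' x + μ' y, μ x + ν y)`.
-/

namespace Pool.Agent.KS6_42.BF

variable {D : ℕ}

lemma sq_eq' {x : K D} {a n : ℤ} (ha : 2 * x.re = a) (hn : QuadraticAlgebra.norm x = n) :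
    x ^ 2 = a * x - n := by
  rw [norm_eq] at hn
  ext
  · simp [sq]
    rw [← ha, ← hn]
    ring
  · simp [sq]
    rw [← ha]
    ring

lemma nat_int (n : ℕ) : IsIntegral ℤ (n : K D) := by
  have := isIntegral_algebraMap (R := ℤ) (A := K D) (x := (n : ℤ))
  simpa using this

lemma cancel_nat {n : ℕ} (hn : n ≠ 0) {a b : K D} (h : (n : K D) * a = n * b) : a = b := by
  have hq : (n : ℚ) ≠ 0 := by exact_mod_cast hn
  have h1 := congrArg QuadraticAlgebra.re h
  have h2 := congrArg QuadraticAlgebra.im h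
  simp at h1 h2
  ext
  · rcases h1 with h1 | h1
    · exact h1
    · exact absurd h1 hn
  · rcases h2 with h2 | h2
    · exact h2
    · exact absurd h2 hn

lemma norm_nat_mul (n : ℕ) (x : K D) :
    QuadraticAlgebra.norm ((n : K D) * x) = (n : ℚ) ^ 2 * QuadraticAlgebra.norm x := by
  rw [norm_eq, norm_eq]
  simp
  ring

lemma not_multiple {n : ℕ} (hn : 2 ≤ n) {x δ : K D} (hx : QuadraticAlgebra.norm x = -(n : ℚ))
    (hδ : IsIntegral ℤ δ) : x ≠ n * δ := by
  intro h
  obtain ⟨-, c, hc⟩ := nt hδ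
  rw [h, norm_nat_mul, hc] at hx
  have h1 : (n : ℤ) ^ 2 * c = -n := by exact_mod_cast hx
  have h2 : (n : ℤ) * (n * c + 1) = 0 := by linarith
  have hn0 : (n : ℤ) ≠ 0 := by omega
  rcases mul_eq_zero.mp h2 with h3 | h3
  · exact hn0 h3
  · have h4 : (n : ℤ) ∣ 1 := ⟨-c, by linarith⟩
    have := Int.le_of_dvd one_pos h4
    omega

section

variable {m : ℕ} {μ ν : K D}

lemma rel_mu (nμ : QuadraticAlgebra.norm μ = -(m : ℚ)) : μ * star μ = -(m : K D) := by
  rw [mul_star, nμ]
  simp

lemma rel_nu (nν : QuadraticAlgebra.norm ν = -((m : ℚ) + 1)) : ν * star ν = -((m : K D) + 1) := by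
  rw [mul_star, nν]
  simp

/-- `-μ ν'` is not a multiple of `μ ν` -/
lemma not_assoc1 (hm : 2 ≤ m) (hν : IsIntegral ℤ ν) (nμ : QuadraticAlgebra.norm μ = -(m : ℚ))
    (nν : QuadraticAlgebra.norm ν = -((m : ℚ) + 1)) {t' : ℤ}
    (tν : 2 * ν.re = ((-1 + (m + 1) * t' : ℤ) : ℚ)) {e : K D} (he : IsIntegral ℤ e) :
    -(μ * star ν) ≠ e * (μ * ν) := by
  intro h
  have r1 := rel_mu nμ
  have r2 := rel_nu nν
  have h1 : (m : K D) * star ν = m * (-(e * ν)) := by
    linear_combination (star μ) * h + (star ν + e * ν) * r1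
  have h2 := cancel_nat (by omega) h1
  have h3 : star ν ^ 2 = ((m : K D) + 1) * e := by
    have : star ν ^ 2 = star ν * (-(e * ν)) := by rw [← h2, sq]
    rw [this]
    linear_combination (-e) * r2
  have h4 : ν ^ 2 = ((m : K D) + 1) * star e := by
    have := congrArg star h3
    rw [star_pow, star_star, star_mul] at this
    rw [this]
    simp
    ring
  have h5 := sq_eq' (n := -((m : ℤ) + 1)) tν (by rw [nν]; push_cast; ring)
  have h6 : ν = ((m + 1 : ℕ) : K D) * (1 + t' * ν - star e) := by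
    push_cast at h5 ⊢
    linear_combination h5 - h4
  refine not_multiple (n := m + 1) (by omega) (x := ν) (by rw [nν]; push_cast; ring) ?_ h6
  exact (isIntegral_one.add ((isIntegral_algebraMap (x := t')).mul hν)).sub (star_int he)

/-- `-μ ν'` is not a multiple of `μ' ν'` -/
lemma not_assoc2 (hm : 2 ≤ m) (hμ : IsIntegral ℤ μ) (nμ : QuadraticAlgebra.norm μ = -(m : ℚ))
    (nν : QuadraticAlgebra.norm ν = -((m : ℚ) + 1)) {t : ℤ}
    (tμ : 2 * μ.re = ((1 + m * t : ℤ) : ℚ)) {e : K D} (he : IsIntegral ℤ e) :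
    -(μ * star ν) ≠ e * star (μ * ν) := by
  intro h
  have r1 := rel_mu nμ
  have r2 := rel_nu nν
  rw [star_mul] at h
  have h1 : ((m + 1 : ℕ) : K D) * μ = (m + 1 : ℕ) * (-(e * star μ)) := by
    push_cast
    linear_combination ν * h + (μ + e * star μ) * r2
  have h2 := cancel_nat (by omega) h1
  have h3 : μ ^ 2 = (m : K D) * e := by
    have : μ ^ 2 = μ * (-(e * star μ)) := by rw [← h2, sq]
    rw [this]
    linear_combination (-e) * r1
  have h5 := sq_eq' (n := -(m : ℤ)) tμ (by rw [nμ]; push_cast; ring)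
  have h6 : μ = (m : K D) * (e - t * μ - 1) := by
    push_cast at h5 ⊢
    linear_combination h3 - h5
  exact not_multiple hm nμ ((he.sub ((isIntegral_algebraMap (x := t)).mul hμ)).sub
    isIntegral_one) h6

/-- primitivity -/
lemma primitive (hm : 2 ≤ m) (hμ : IsIntegral ℤ μ) (nμ : QuadraticAlgebra.norm μ = -(m : ℚ))
    {t t' : ℤ} (tμ : 2 * μ.re = ((1 + m * t : ℤ) : ℚ)) {w : K D} (hw : IsIntegral ℤ w)
    (nw : QuadraticAlgebra.norm w = -((m : ℚ) + 1))
    (tw : 2 * w.re = ((-1 + (m + 1) * t' : ℤ) : ℚ)) (n : ℕ) (hn : 2 ≤ n) (δ : K D)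
    (hδ : IsIntegral ℤ δ) : μ * w ≠ n * δ := by
  intro h
  have r1 := rel_mu nμ
  have r2 := rel_nu nw
  obtain ⟨p, hp, n', rfl⟩ := Nat.exists_prime_and_dvd (show n ≠ 1 by omega)
  have hδ' : IsIntegral ℤ ((n' : K D) * δ) := (nat_int n').mul hδ
  obtain ⟨-, c, hc⟩ := nt hδ'
  have h' : μ * w = (p : K D) * (n' * δ) := by
    rw [h]
    push_cast
    ring
  set δ' : K D := n' * δ with hδ'def
  have hdvd : p ∣ m * (m + 1) := by
    have h1 := congrArg QuadraticAlgebra.norm h'
    rw [map_mul, nμ, nw, norm_nat_mul, hc] at h1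
    have h2 : (m : ℤ) * (m + 1) = p ^ 2 * c := by
      have : (m : ℚ) * (m + 1) = p ^ 2 * c := by linarith
      exact_mod_cast this
    have h3 : (p : ℤ) ∣ ((m * (m + 1) : ℕ) : ℤ) := by
      push_cast
      rw [h2]
      exact ⟨p * c, by ring⟩
    exact_mod_cast h3
  have hp1 : ¬ ((p : ℤ) ∣ 1) := by
    intro h1
    have h2 := Int.le_of_dvd one_pos h1
    have := hp.two_le
    omega
  rcases hp.dvd_mul.mp hdvd with hpm | hpm
  · obtain ⟨m', hm'⟩ := hpm
    have hmc : (m : K D) = p * m' := by rw [hm']; push_cast; ring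
    have h3 : μ = (p : K D) * (-(δ' * star w) - m' * μ) := by
      have h4 : ((m : K D) + 1) * μ = -((p : K D) * δ' * star w) := by
        linear_combination (-star w) * h' + μ * r2
      linear_combination h4 - μ * hmc
    have hint : IsIntegral ℤ (-(δ' * star w) - m' * μ) :=
      ((hδ'.mul (star_int hw)).neg).sub ((nat_int m').mul hμ)
    obtain ⟨⟨a, ha⟩, -⟩ := nt hint
    have h5 : μ.re = p * (-(δ' * star w) - m' * μ).re := by
      conv_lhs => rw [h3]
      simp
    have h6 : (1 + m * t : ℤ) = p * a := by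
      have : ((1 + m * t : ℤ) : ℚ) = p * a := by
        rw [← tμ, ← ha, h5]
        ring
      exact_mod_cast this
    apply hp1
    refine ⟨a - m' * t, ?_⟩
    rw [hm'] at h6
    push_cast at h6
    linarith
  · obtain ⟨m', hm'⟩ := hpm
    have hmc : (m : K D) + 1 = p * m' := by
      have := congrArg (Nat.cast (R := K D)) hm'
      push_cast at this
      exact this
    have h3 : w = (p : K D) * (m' * w + δ' * star μ) := by
      linear_combination (star μ) * h' - w * r1 + w * hmc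
    have hint : IsIntegral ℤ (m' * w + δ' * star μ) :=
      ((nat_int m').mul hw).add (hδ'.mul (star_int hμ))
    obtain ⟨⟨a, ha⟩, -⟩ := nt hint
    have h5 : w.re = p * (m' * w + δ' * star μ).re := by
      conv_lhs => rw [h3]
      simp
    have h6 : (-1 + (m + 1) * t' : ℤ) = p * a := by
      have : ((-1 + (m + 1) * t' : ℤ) : ℚ) = p * a := by
        rw [← tw, ← ha, h5]
        ring
      exact_mod_cast this
    apply hp1
    refine ⟨m' * t' - a, ?_⟩
    have h7 : (m : ℤ) + 1 = p * m' := by exact_mod_cast hm'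
    rw [h7] at h6
    linarith

end

end Pool.Agent.KS6_42.BF
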