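import Mathlib

/-!
# Infinitely many squarefree parts

The integers `A² z² - 2 B z + 1` with `A = (m + 1)²`, `B = m² - 1`, `z = m ^ (2 k)`, `k = 1, 2, ...`,
have infinitely many squarefree parts: the product of two of them which are close to each other is
not a perfect square.
-/

namespace Pool.Agent.KS6_42.BF

/-- the polynomial -/
def P (A B z : ℤ) : ℤ := A ^ 2 * z ^ 2 - 2 * B * z + 1

lemma not_square {A B c : ℤ} (hB : 0 < B) (hBA : B < A) (hc : 2 ≤ c) :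
    ∃ z0 : ℤ, ∀ z : ℤ, z0 ≤ z → ∀ W : ℤ, P A B z * P A B (c * z) ≠ W ^ 2 := by
  obtain ⟨d, hd⟩ : ∃ d : ℤ, d = 2 * A ^ 2 * c := ⟨_, rfl⟩
  obtain ⟨δ, hδ⟩ : ∃ δ : ℤ, δ = (A ^ 2 - B ^ 2) * (c ^ 2 + 1) + 2 * B ^ 2 * c := ⟨_, rfl⟩
  have hA : 0 < A := by linarith
  have hAB : 0 < A ^ 2 - B ^ 2 := by
    have : A ^ 2 - B ^ 2 = (A - B) * (A + B) := by ring
    rw [this]
    exact mul_pos (by linarith) (by linarith)
  have hd0 : 0 < d := by
    rw [hd]
    positivity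
  have hδd : δ - d = (A ^ 2 - B ^ 2) * (c - 1) ^ 2 := by
    rw [hδ, hd]
    ring
  have hc1 : 0 < c - 1 := by linarith
  have hδd0 : 0 < δ - d := by
    rw [hδd]
    positivity
  have hδ0 : 0 < δ := by linarith
  obtain ⟨a, ha⟩ : ∃ a : ℤ, a = 2 * d * B * (c + 1) * (δ - d) := ⟨_, rfl⟩
  have hc2 : 0 < c + 1 := by linarith
  have ha0 : 0 < a := by
    rw [ha]
    positivity
  obtain ⟨b, hb⟩ : ∃ b : ℤ, b = δ ^ 2 - d ^ 2 := ⟨_, rfl⟩
  have hb0 : 0 < b := by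
    have : b = (δ - d) * (δ + d) := by rw [hb]; ring
    rw [this]
    exact mul_pos hδd0 (by linarith)
  obtain ⟨e, he⟩ : ∃ e : ℤ, e = 4 * A ^ 2 * c * B * (c + 1) := ⟨_, rfl⟩
  have he0 : 0 < e := by
    rw [he]
    positivity
  refine ⟨b + 1 + (a + e), fun z hz W hW => ?_⟩
  have hz1 : b + 1 ≤ z := by linarith
  have hz2 : a + e ≤ z := by linarith
  have hz0 : 0 < z := by linarith
  obtain ⟨q, hq⟩ : ∃ q : ℤ, q = 2 * A ^ 2 * c * (A ^ 2 * c * z ^ 2 - B * (c + 1) * z) + δ :=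
    ⟨_, rfl⟩
  have hid : (d * W) ^ 2 = q ^ 2 + (a * z - b) := by
    rw [mul_pow, ← hW, hq, ha, hb, hδ, hd]
    unfold P
    ring
  have haz : z ≤ a * z := le_mul_of_one_le_left hz0.le (by linarith)
  have hR0 : 0 < a * z - b := by linarith
  have h12 : 2 * q = z * (4 * A ^ 4 * c ^ 2 * z - e) + 2 * δ := by
    rw [hq, he]
    ring
  have h13 : z ≤ 4 * A ^ 4 * c ^ 2 * z := by
    have : 0 < 4 * A ^ 4 * c ^ 2 := by positivity
    exact le_mul_of_one_le_left hz0.le (by linarith)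
  have h14 : z * a ≤ z * (4 * A ^ 4 * c ^ 2 * z - e) :=
    mul_le_mul_of_nonneg_left (by linarith) hz0.le
  have h14' : z * a = a * z := mul_comm _ _
  have hq0 : 0 < q := by linarith
  have hR1 : a * z - b < 2 * q + 1 := by linarith
  -- `d W` lies strictly between `q` and `q + 1`
  have h15 : q ^ 2 < (d * W) ^ 2 := by linarith
  have h16 : (d * W) ^ 2 < (q + 1) ^ 2 := by
    have h20 : (q + 1) ^ 2 = q ^ 2 + (2 * q + 1) := by ring
    rw [h20]
    linarith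
  have h17 : q < |d * W| := by
    have := sq_lt_sq.mp h15
    rwa [abs_of_pos hq0] at this
  have h18 : |d * W| < q + 1 := by
    have := sq_lt_sq.mp h16
    rwa [abs_of_pos (show 0 < q + 1 by linarith)] at this
  linarith

/-- the numbers whose squarefree parts are the discriminants -/
def Dn (m z : ℕ) : ℕ := ((m + 1) ^ 2 * z - 1) ^ 2 + 4 * (m + 1) * z

lemma Dn_cast {m z : ℕ} (hz : 1 ≤ z) :
    (Dn m z : ℤ) = ((m + 1 : ℤ) ^ 2 * z - 1) ^ 2 + 4 * (m + 1) * z := by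
  unfold Dn
  have h : 1 ≤ (m + 1) ^ 2 * z := Nat.one_le_iff_ne_zero.mpr (by positivity)
  rw [Nat.cast_add, Nat.cast_pow, Nat.cast_sub h]
  push_cast
  ring

lemma Dn_P {m z : ℕ} (hz : 1 ≤ z) :
    (Dn m z : ℤ) = P ((m + 1 : ℤ) ^ 2) ((m : ℤ) ^ 2 - 1) z := by
  rw [Dn_cast hz]
  unfold P
  ring

/-- for every bound there is `k` such that the squarefree part of `Dn m (m ^ (2 k))` is larger -/
lemma exists_large {m : ℕ} (hm : 2 ≤ m) (C : ℕ) :
    ∃ k f s : ℕ, 1 ≤ k ∧ C < s ∧ Squarefree s ∧ f ^ 2 * s = Dn m (m ^ (2 * k)) := by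
  classical
  by_contra hne
  push Not at hne
  have hm' : (2 : ℤ) ≤ m := by exact_mod_cast hm
  -- the squarefree parts
  choose s f hfs hs using fun k : ℕ => Nat.sq_mul_squarefree (Dn m (m ^ (2 * k)))
  have hsC : ∀ k, 1 ≤ k → s k ≤ C := by
    intro k hk
    by_contra hlt
    push Not at hlt
    exact hne k (f k) (s k) hk hlt (hs k) (hfs k)
  have hB : (0 : ℤ) < (m : ℤ) ^ 2 - 1 := by nlinarith
  have hBA : (m : ℤ) ^ 2 - 1 < ((m : ℤ) + 1) ^ 2 := by nlinarith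
  have hz0 : ∀ j : ℕ, ∃ z0 : ℤ, 1 ≤ j → ∀ z : ℤ, z0 ≤ z → ∀ W : ℤ,
      P ((m + 1 : ℤ) ^ 2) ((m : ℤ) ^ 2 - 1) z * P ((m + 1 : ℤ) ^ 2) ((m : ℤ) ^ 2 - 1)
        ((m : ℤ) ^ (2 * j) * z) ≠ W ^ 2 := by
    intro j
    rcases Nat.eq_zero_or_pos j with h | h
    · exact ⟨0, fun h1 => by omega⟩
    · obtain ⟨z0, hz0⟩ := not_square (c := (m : ℤ) ^ (2 * j)) hB hBA (by
        calc (2 : ℤ) ≤ m := hm'
          _ = (m : ℤ) ^ 1 := (pow_one _).symm
          _ ≤ (m : ℤ) ^ (2 * j) := pow_le_pow_right₀ (by linarith) (by omega))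
      exact ⟨z0, fun _ => hz0⟩
  choose z0 hz0 using hz0
  set Z : ℤ := ∑ j ∈ Finset.range (C + 2), |z0 j| with hZ
  have hZj : ∀ j, j < C + 2 → z0 j ≤ Z := by
    intro j hj
    exact (le_abs_self _).trans (Finset.single_le_sum (f := fun j => |z0 j|)
      (fun i _ => abs_nonneg _) (Finset.mem_range.mpr hj))
  -- a large exponent
  obtain ⟨N, hN⟩ : ∃ N : ℕ, Z ≤ (m : ℤ) ^ N :=
    (pow_unbounded_of_one_lt Z (show (1 : ℤ) < m by linarith)).imp fun _ h => h.le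
  -- two equal squarefree parts
  obtain ⟨i, hi, j, hj, hij, he⟩ := Finset.exists_ne_map_eq_of_card_lt_of_maps_to
    (s := Finset.range (C + 2)) (t := Finset.range (C + 1)) (f := fun i => s (N + 1 + i)) (by simp)
    (by
      intro i _
      simp only [Finset.coe_range, Set.mem_Iio]
      have := hsC (N + 1 + i) (by omega)
      omega)
  wlog hlt : i < j generalizing i j
  · exact this j hj i hi hij.symm he.symm (by omega)
  rw [Finset.mem_range] at hi hj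
  set k1 := N + 1 + i with hk1
  set k2 := N + 1 + j with hk2
  have hp1 : 1 ≤ m ^ (2 * k1) := Nat.one_le_pow _ _ (by omega)
  have hp2 : 1 ≤ m ^ (2 * k2) := Nat.one_le_pow _ _ (by omega)
  have e1 := Dn_P (m := m) hp1
  have e2 := Dn_P (m := m) hp2
  have hpow : (m : ℤ) ^ (2 * k2) = (m : ℤ) ^ (2 * (j - i)) * (m : ℤ) ^ (2 * k1) := by
    rw [← pow_add]
    congr 1
    omega
  have hZk : Z ≤ (m : ℤ) ^ (2 * k1) :=
    hN.trans (pow_le_pow_right₀ (by linarith) (by omega))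
  refine hz0 (j - i) (by omega) ((m : ℤ) ^ (2 * k1)) ((hZj _ (by omega)).trans hZk)
    ((f k1 * f k2 * s k1 : ℕ) : ℤ) ?_
  push_cast at e1 e2
  rw [← hpow, ← e1, ← e2, ← hfs k1, ← hfs k2, ← he]
  push_cast
  ring

end Pool.Agent.KS6_42.BF
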