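import Mathlib

/-!
# Binary forms over real quadratic fields: definitions and tools
-/

namespace Pool.Agent.KS6_42.BF

/-- The quadratic field `ℚ(√D)`; `⟨a, b⟩` is `a + b √D`, and `star` is the nontrivial
automorphism. -/
abbrev K (D : ℕ) := QuadraticAlgebra ℚ D 0

/-- `x` is a totally positive algebraic integer. -/
def TotPos {D : ℕ} (x : K D) : Prop :=
  IsIntegral ℤ x ∧ 0 < (x.re : ℝ) + x.im * √D ∧ 0 < (x.re : ℝ) - x.im * √D

/-- `x` is an indecomposable integer. -/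
def Indec {D : ℕ} (x : K D) : Prop := TotPos x ∧ ¬ ∃ y z, TotPos y ∧ TotPos z ∧ x = y + z

/-- `e` is a unit of the ring of integers. -/
def IsUnitO {D : ℕ} (e : K D) : Prop := IsIntegral ℤ e ∧ ∃ f, IsIntegral ℤ f ∧ e * f = 1

/-- The form `Q_{a,m}(x, y) = a x² + 2 m x y + a' y²`. -/
def Q {D : ℕ} (a : K D) (m : ℤ) (x y : K D) : K D := a * x ^ 2 + 2 * m * x * y + star a * y ^ 2

/-- The pair `(a, b)` is admissible: `b` is associated with neither `a` nor `a'`, and none of `b`,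
`b`, `a`, `a` is `a`, `a'`, `b`, `b'` times the square of an integer. -/
def Admissible {D : ℕ} (a b : K D) : Prop :=
  (∀ e, IsUnitO e → b ≠ e * a ∧ b ≠ e * star a) ∧
    ∀ η, IsIntegral ℤ η → b ≠ a * η ^ 2 ∧ b ≠ star a * η ^ 2 ∧ a ≠ b * η ^ 2 ∧ a ≠ star b * η ^ 2

/-- The forms `Q_{a,m}` and `Q_{b,n}` are equivalent over the ring of integers. -/
def Equivalent {D : ℕ} (a : K D) (m : ℤ) (b : K D) (n : ℤ) : Prop :=
  ∃ p q r s : K D, IsIntegral ℤ p ∧ IsIntegral ℤ q ∧ IsIntegral ℤ r ∧ IsIntegral ℤ s ∧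
    IsUnitO (p * s - q * r) ∧ ∀ x y, Q b n x y = Q a m (p * x + q * y) (r * x + s * y)

variable {D : ℕ}

lemma nt {x : K D} (h : IsIntegral ℤ x) :
    (∃ a : ℤ, 2 * x.re = a) ∧ ∃ n : ℤ, QuadraticAlgebra.norm x = n := by
  have hs : IsIntegral ℤ (star x) := h.map (starRingEnd (K D)).toIntAlgHom
  have key : ∀ q : ℚ, IsIntegral ℤ (algebraMap ℚ (K D) q) → ∃ a : ℤ, q = a := fun q hq => by
    obtain ⟨a, ha⟩ := IsIntegrallyClosed.isIntegral_iff.1
      ((isIntegral_algebraMap_iff (algebraMap ℚ (K D)).injective).1 hq)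
    exact ⟨a, ha.symm⟩
  refine ⟨key _ ?_, key _ ?_⟩
  · convert h.add hs using 1
    ext <;> simp
    ring
  · rw [QuadraticAlgebra.algebraMap_norm_eq_mul_star]; exact h.mul hs

lemma star_int {x : K D} (h : IsIntegral ℤ x) : IsIntegral ℤ (star x) :=
  h.map (starRingEnd (K D)).toIntAlgHom

lemma norm_eq (x : K D) : QuadraticAlgebra.norm x = x.re ^ 2 - D * x.im ^ 2 := by
  rw [QuadraticAlgebra.norm_def]
  ring

lemma mul_star (x : K D) : x * star x = algebraMap ℚ (K D) (QuadraticAlgebra.norm x) :=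
  (QuadraticAlgebra.algebraMap_norm_eq_mul_star x).symm

/-- elements with integral trace and norm are integral -/
lemma integ_of {x : K D} (a n : ℤ) (ha : 2 * x.re = a) (hn : QuadraticAlgebra.norm x = n) :
    IsIntegral ℤ x := by
  refine ⟨Polynomial.X ^ 2 - Polynomial.C a * Polynomial.X + Polynomial.C n, by monicity!, ?_⟩
  rw [norm_eq] at hn
  simp only [Polynomial.eval₂_add, Polynomial.eval₂_sub, Polynomial.eval₂_pow,
    Polynomial.eval₂_X, Polynomial.eval₂_mul, Polynomial.eval₂_C]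
  have e1 : (algebraMap ℤ (K D)) a = ⟨a, 0⟩ := by
    ext <;> simp
  have e2 : (algebraMap ℤ (K D)) n = ⟨n, 0⟩ := by
    ext <;> simp
  rw [e1, e2, ← ha, ← hn]
  ext <;> simp [sq] <;> ring

/-- the real embedding -/
noncomputable def emb (x : K D) : ℝ := (x.re : ℝ) + x.im * √D

lemma emb_star (x : K D) : emb (star x) = (x.re : ℝ) - x.im * √D := by
  unfold emb
  simp
  ring

lemma emb_mul (x y : K D) : emb (x * y) = emb x * emb y := by
  unfold emb
  have h : √(D : ℝ) * √(D : ℝ) = D := Real.mul_self_sqrt (Nat.cast_nonneg D)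
  simp
  linear_combination (x.im : ℝ) * y.im * (-h)

lemma emb_neg (x : K D) : emb (-x) = -emb x := by
  unfold emb
  simp
  ring

lemma emb_norm (x : K D) : emb x * emb (star x) = ((QuadraticAlgebra.norm x : ℚ) : ℝ) := by
  rw [norm_eq, emb_star]
  unfold emb
  have h : √(D : ℝ) * √(D : ℝ) = D := Real.mul_self_sqrt (Nat.cast_nonneg D)
  push_cast
  linear_combination (x.im : ℝ) ^ 2 * (-h)

lemma totPos_iff (x : K D) : TotPos x ↔ IsIntegral ℤ x ∧ 0 < emb x ∧ 0 < emb (star x) := by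
  rw [emb_star]
  rfl

lemma im_int (hD : Squarefree D) {x : K D} (h : IsIntegral ℤ x) : ∃ b : ℤ, 2 * x.im = b := by
  obtain ⟨⟨a, ha⟩, n, hn⟩ := nt h
  have hD0 : (D : ℚ) ≠ 0 := by
    have := hD.ne_zero
    exact_mod_cast this
  rw [norm_eq] at hn
  have h1 : (2 * D * x.im) ^ 2 = ((D * (a ^ 2 - 4 * n) : ℤ) : ℚ) := by
    push_cast
    rw [← ha, ← hn]
    ring
  obtain ⟨c, hc⟩ : ∃ c : ℤ, (c : ℚ) = 2 * D * x.im :=
    IsIntegrallyClosed.exists_algebraMap_eq_of_isIntegral_pow (n := 2) (by norm_num)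
      (h1 ▸ isIntegral_algebraMap)
  have h2 : c ^ 2 = D * (a ^ 2 - 4 * n) := by
    rw [← hc] at h1
    exact_mod_cast h1
  have h3 : (D : ℤ) ∣ c := by
    have hsq : Squarefree (D : ℤ) := Int.squarefree_natCast.mpr hD
    exact (hsq.dvd_pow_iff_dvd (n := 2) (by norm_num)).mp ⟨_, h2⟩
  obtain ⟨b, rfl⟩ := h3
  refine ⟨b, ?_⟩
  push_cast at hc
  have : (D : ℚ) * (2 * x.im) = D * b := by rw [hc]; ring
  exact mul_left_cancel₀ hD0 this

/-- the trace of a totally positive integer which is not rational is larger than `√D` -/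
lemma trace_large (hD : Squarefree D) {x : K D} (h : TotPos x) (him : x.im ≠ 0) :
    ∃ a : ℤ, 2 * x.re = a ∧ 0 < a ∧ (D : ℤ) < a ^ 2 := by
  obtain ⟨⟨a, ha⟩, n, hn⟩ := nt h.1
  obtain ⟨b, hb⟩ := im_int hD h.1
  have hb0 : b ≠ 0 := by
    rintro rfl
    apply him
    simpa using hb
  have h1 : emb x * emb (star x) = ((QuadraticAlgebra.norm x : ℚ) : ℝ) := emb_norm x
  obtain ⟨_, h2, h3⟩ := (totPos_iff x).mp h
  have h4 : (0 : ℝ) < ((QuadraticAlgebra.norm x : ℚ) : ℝ) := by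
    rw [← h1]
    exact mul_pos h2 h3
  have h5 : 0 < QuadraticAlgebra.norm x := by exact_mod_cast h4
  rw [norm_eq] at h5
  have h6 : (D : ℚ) * (b : ℚ) ^ 2 < (a : ℚ) ^ 2 := by
    rw [← ha, ← hb]
    nlinarith
  have h7 : (D : ℤ) * b ^ 2 < a ^ 2 := by exact_mod_cast h6
  have h8 : 1 ≤ b ^ 2 := by
    have := sq_nonneg b
    have : b ^ 2 ≠ 0 := pow_ne_zero 2 hb0
    omega
  have h9 : (0 : ℝ) < 2 * (x.re : ℝ) := by
    rw [emb_star] at h3
    unfold emb at h2
    linarith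
  have h10 : (0 : ℚ) < 2 * x.re := by exact_mod_cast h9
  refine ⟨a, ha, ?_, ?_⟩
  · rw [ha] at h10
    exact_mod_cast h10
  · nlinarith [Int.natCast_nonneg D]

end Pool.Agent.KS6_42.BF
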