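import Pool.Agent.KS6_42.BF.Abs
import Pool.Agent.KS6_42.BF.Arith

/-!
# The construction

Let `z = m ^ (2 k)` and let `κ` be the integer with trace `(m + 1)² z - 1` and norm `-(m + 1) z`.
Then `μ = 1 + (m + 1) κ` has norm `-m`, and `κ μ ^ (2 k)` is divisible by `z`; the quotient `ν` has
norm `-(m + 1)`.
-/

namespace Pool.Agent.KS6_42.BF

variable {D : ℕ}

lemma norm_neg' (x : K D) : QuadraticAlgebra.norm (-x) = QuadraticAlgebra.norm x := by
  rw [norm_eq, norm_eq]
  simp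

lemma isUnitO_neg_one : IsUnitO (-1 : K D) :=
  ⟨isIntegral_one.neg, -1, isIntegral_one.neg, by ring⟩

lemma emb_pow (x : K D) (n : ℕ) : emb (x ^ n) = emb x ^ n := by
  induction n with
  | zero => simp [emb, QuadraticAlgebra.re_one, QuadraticAlgebra.im_one]
  | succ n ih => rw [pow_succ, emb_mul, ih, pow_succ]

theorem main_abs (hD : Squarefree D) {m : ℕ} (hm : 2 ≤ m) (hbig : (m * (m + 1)) ^ 2 ≤ D)
    {μ ν : K D} (hμ : IsIntegral ℤ μ) (hν : IsIntegral ℤ ν)
    (nμ : QuadraticAlgebra.norm μ = -(m : ℚ)) (nν : QuadraticAlgebra.norm ν = -((m : ℚ) + 1))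
    (eμ : 0 < emb μ) (eν : 0 < emb ν) {t t' : ℤ}
    (tμ : 2 * μ.re = ((1 + m * t : ℤ) : ℚ)) (tν : 2 * ν.re = ((-1 + (m + 1) * t' : ℤ) : ℚ)) :
    Indec (μ * ν) ∧ Indec (-(μ * star ν)) ∧ Admissible (μ * ν) (-(μ * star ν)) ∧
      QuadraticAlgebra.norm (μ * ν) = m * (m + 1) ∧
      QuadraticAlgebra.norm (-(μ * star ν)) = m * (m + 1) ∧
      Equivalent (μ * ν) m (-(μ * star ν)) m := by
  have r1 := rel_mu nμ
  have r2 := rel_nu nν
  have hm0 : (0 : ℝ) < m := by
    have : 0 < m := by omega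
    exact_mod_cast this
  have eμ' : emb (star μ) < 0 := by
    have h := emb_norm μ
    rw [nμ] at h
    push_cast at h
    by_contra hge
    push Not at hge
    have := mul_nonneg eμ.le hge
    linarith
  have eν' : emb (star ν) < 0 := by
    have h := emb_norm ν
    rw [nν] at h
    push_cast at h
    by_contra hge
    push Not at hge
    have := mul_nonneg eν.le hge
    linarith
  have hα : TotPos (μ * ν) := by
    rw [totPos_iff, star_mul, emb_mul, emb_mul]
    exact ⟨hμ.mul hν, mul_pos eμ eν, mul_pos_of_neg_of_neg eν' eμ'⟩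
  have hβ : TotPos (-(μ * star ν)) := by
    rw [totPos_iff, star_neg, star_mul, star_star, emb_neg, emb_neg, emb_mul, emb_mul]
    have h1 := mul_neg_of_pos_of_neg eμ eν'
    have h2 := mul_neg_of_pos_of_neg eν eμ'
    exact ⟨(hμ.mul (star_int hν)).neg, by linarith, by linarith⟩
  have nα : QuadraticAlgebra.norm (μ * ν) = m * (m + 1) := by
    rw [map_mul, nμ, nν]
    ring
  have nβ : QuadraticAlgebra.norm (-(μ * star ν)) = m * (m + 1) := by
    rw [norm_neg', map_mul, QuadraticAlgebra.norm_star, nμ, nν]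
    ring
  have A1 : ∀ e : K D, IsIntegral ℤ e → -(μ * star ν) ≠ e * (μ * ν) := fun e he =>
    not_assoc1 hm hν nμ nν tν he
  have A2 : ∀ e : K D, IsIntegral ℤ e → -(μ * star ν) ≠ e * star (μ * ν) := fun e he =>
    not_assoc2 hm hμ nμ nν tμ he
  refine ⟨?_, ?_, ⟨fun e he => ⟨A1 e he.1, A2 e he.1⟩, fun η hη => ?_⟩, nα, nβ, ?_⟩
  · exact indec_of hD hα (m * (m + 1)) (by rw [nα]; push_cast; ring) hbig
      (fun n hn δ hδ => primitive hm hμ nμ tμ hν nν tν n hn δ hδ)
  · refine indec_of hD hβ (m * (m + 1)) (by rw [nβ]; push_cast; ring) hbig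
      (fun n hn δ hδ h => ?_)
    refine primitive hm hμ nμ tμ (star_int hν) (by rw [QuadraticAlgebra.norm_star, nν])
      (t' := t') (by rw [← tν]; simp) n hn (-δ) hδ.neg ?_
    linear_combination -h
  · have hη2 : IsIntegral ℤ (η ^ 2) := hη.pow 2
    have hm1 : (m : ℚ) * (m + 1) ≠ 0 := by
      have : (0 : ℚ) < m := by exact_mod_cast hm0
      positivity
    refine ⟨fun h => A1 _ hη2 (by rw [h]; ring), fun h => A2 _ hη2 (by rw [h]; ring), ?_, ?_⟩
    · intro h
      have h1 := congrArg QuadraticAlgebra.norm h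
      rw [nα, map_mul, nβ] at h1
      have h2 : QuadraticAlgebra.norm (η ^ 2) = 1 := by
        apply mul_left_cancel₀ hm1
        linarith
      have h3 : η ^ 2 * star (η ^ 2) = 1 := by
        rw [mul_star, h2]
        simp
      refine A1 _ (star_int hη2) ?_
      rw [h]
      linear_combination (μ * star ν) * h3
    · intro h
      have h1 := congrArg QuadraticAlgebra.norm h
      rw [nα, map_mul, QuadraticAlgebra.norm_star, nβ] at h1
      have h2 : QuadraticAlgebra.norm (η ^ 2) = 1 := by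
        apply mul_left_cancel₀ hm1
        linarith
      have h3 : η ^ 2 * star (η ^ 2) = 1 := by
        rw [mul_star, h2]
        simp
      have h4 := congrArg star h
      rw [star_mul (star (-(μ * star ν))), star_star] at h4
      refine A2 _ hη2 ?_
      rw [h4]
      linear_combination (μ * star ν) * h3
  · refine ⟨star ν, star μ, μ, ν, star_int hν, star_int hμ, hμ, hν, ?_, fun x y => ?_⟩
    · have : star ν * ν - star μ * μ = -1 := by linear_combination r2 - r1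
      rw [this]
      exact isUnitO_neg_one
    · unfold Q
      rw [star_neg, star_mul, star_mul, star_star]
      push_cast
      linear_combination (-(μ * star ν) * x ^ 2 - star μ * ν * y ^ 2 + (2 * m + 4) * x * y) * r1
        + (-(μ * star ν) * x ^ 2 - star μ * ν * y ^ 2 + (-4 * μ * star μ - 2 * m) * x * y) * r2

theorem exists_mu_nu {m k f : ℕ} (hm : 2 ≤ m) (hk : 1 ≤ k)
    (hf : f ^ 2 * D = Dn m (m ^ (2 * k))) :
    ∃ μ ν : K D, IsIntegral ℤ μ ∧ IsIntegral ℤ ν ∧ QuadraticAlgebra.norm μ = -(m : ℚ) ∧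
      QuadraticAlgebra.norm ν = -((m : ℚ) + 1) ∧ 0 < emb μ ∧ 0 < emb ν ∧
      ∃ t t' : ℤ, 2 * μ.re = ((1 + m * t : ℤ) : ℚ) ∧ 2 * ν.re = ((-1 + (m + 1) * t' : ℤ) : ℚ) := by
  obtain ⟨z, hz⟩ : ∃ z : ℕ, z = m ^ (2 * k) := ⟨_, rfl⟩
  have hz1 : 1 ≤ z := by
    rw [hz]
    exact Nat.one_le_pow _ _ (by omega)
  rw [← hz] at hf
  have hDn := Dn_cast (m := m) hz1
  rw [← hf] at hDn
  have hDq : (f : ℚ) ^ 2 * D = ((m + 1) ^ 2 * z - 1) ^ 2 + 4 * (m + 1) * z := by
    exact_mod_cast hDn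
  obtain ⟨κ, hκd⟩ : ∃ κ : K D, κ = ⟨((m + 1) ^ 2 * z - 1) / 2, f / 2⟩ := ⟨_, rfl⟩
  have hre : 2 * κ.re = (m + 1) ^ 2 * z - 1 := by
    rw [hκd]
    ring
  have nκ : QuadraticAlgebra.norm κ = -((m + 1) * z) := by
    rw [norm_eq, hκd]
    linear_combination (-1 / 4) * hDq
  have tκ : 2 * κ.re = (((m + 1) ^ 2 * z - 1 : ℤ) : ℚ) := by
    rw [hre]
    push_cast
    ring
  have nκ' : QuadraticAlgebra.norm κ = ((-((m + 1) * z) : ℤ) : ℚ) := by
    rw [nκ]
    push_cast
    ring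
  have hκ : IsIntegral ℤ κ := integ_of _ _ tκ nκ'
  have hsq := sq_eq' tκ nκ'
  push_cast at hsq
  obtain ⟨μ, hμd⟩ : ∃ μ : K D, μ = 1 + (m + 1) * κ := ⟨_, rfl⟩
  have hμ : IsIntegral ℤ μ := by
    rw [hμd]
    exact isIntegral_one.add (((nat_int m).add isIntegral_one).mul hκ)
  have μre : μ.re = 1 + (m + 1) * κ.re := by
    rw [hμd]
    simp [QuadraticAlgebra.re_one, QuadraticAlgebra.im_one]
  have μim : μ.im = (m + 1) * κ.im := by
    rw [hμd]
    simp [QuadraticAlgebra.re_one, QuadraticAlgebra.im_one]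
  have nμ : QuadraticAlgebra.norm μ = -(m : ℚ) := by
    rw [norm_eq] at nκ ⊢
    rw [μre, μim]
    linear_combination ((m : ℚ) + 1) ^ 2 * nκ + ((m : ℚ) + 1) * hre
  have R1 : κ * (μ + m) = (m + 1) ^ 2 * z * μ := by
    rw [hμd]
    linear_combination ((m : K D) + 1) * hsq
  -- powers of `μ` modulo `z`
  have claim1 : ∀ j : ℕ, ∃ ω : K D, IsIntegral ℤ ω ∧ κ * μ ^ j = (-(m : K D)) ^ j * κ + z * ω := by
    intro j
    induction j with
    | zero => exact ⟨0, isIntegral_zero, by simp⟩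
    | succ j ih =>
      obtain ⟨ω, hω, h⟩ := ih
      refine ⟨(-(m : K D)) ^ j * (((m : K D) + 1) ^ 2 * μ) + ω * μ, ?_, ?_⟩
      · exact (((nat_int m).neg.pow j).mul ((((nat_int m).add isIntegral_one).pow 2).mul hμ)).add
          (hω.mul hμ)
      · rw [pow_succ, pow_succ]
        linear_combination μ * h + (-(m : K D)) ^ j * R1
  -- powers of `μ` modulo `m + 1`
  have claim2 : ∀ j : ℕ, ∃ σ : K D, IsIntegral ℤ σ ∧ μ ^ j = 1 + (m + 1) * σ := by
    intro j
    induction j with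
    | zero => exact ⟨0, isIntegral_zero, by simp⟩
    | succ j ih =>
      obtain ⟨σ, hσ, h⟩ := ih
      refine ⟨σ + κ + (m + 1) * σ * κ, ?_, ?_⟩
      · exact (hσ.add hκ).add ((((nat_int m).add isIntegral_one).mul hσ).mul hκ)
      · rw [pow_succ, h, hμd]
        ring
  obtain ⟨ω, hω, h1⟩ := claim1 (2 * k)
  obtain ⟨σ, hσ, h2⟩ := claim2 (2 * k)
  have hzK : (-(m : K D)) ^ (2 * k) = z := by
    rw [Even.neg_pow (even_two_mul k), hz]
    push_cast
    rfl
  rw [hzK] at h1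
  obtain ⟨ν, hνd⟩ : ∃ ν : K D, ν = κ + ω := ⟨_, rfl⟩
  have hν : IsIntegral ℤ ν := by
    rw [hνd]
    exact hκ.add hω
  have hzν : (z : K D) * ν = κ * μ ^ (2 * k) := by
    rw [h1, hνd]
    ring
  have hzq : (z : ℚ) ≠ 0 := by
    have : 0 < z := by omega
    positivity
  have nν : QuadraticAlgebra.norm ν = -((m : ℚ) + 1) := by
    have h3 := congrArg QuadraticAlgebra.norm hzν
    rw [norm_nat_mul, map_mul, map_pow, nκ, nμ, Even.neg_pow (even_two_mul k)] at h3
    have h4 : (m : ℚ) ^ (2 * k) = z := by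
      rw [hz]
      push_cast
      rfl
    rw [h4] at h3
    have h5 : (z : ℚ) ^ 2 * QuadraticAlgebra.norm ν = z ^ 2 * (-((m : ℚ) + 1)) := by
      rw [h3]
      ring
    exact mul_left_cancel₀ (pow_ne_zero 2 hzq) h5
  -- `z ≡ 1` modulo `m + 1`
  obtain ⟨c, hc⟩ : ∃ c : ℤ, (z : ℤ) = 1 + (m + 1) * c := by
    have h3 : ((m : ℤ) ^ 2 - 1) ∣ ((m : ℤ) ^ 2) ^ k - 1 ^ k := sub_dvd_pow_sub_pow _ _ _
    obtain ⟨c, hc⟩ := h3
    refine ⟨(m - 1) * c, ?_⟩
    rw [hz]
    push_cast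
    rw [pow_mul]
    rw [one_pow] at hc
    linear_combination hc
  have hcK : (z : K D) = 1 + (m + 1) * c := by
    have := congrArg (Int.cast (R := K D)) hc
    push_cast at this
    exact this
  have hrel : ν = κ + (m + 1) * (κ * σ - c * ν) := by
    linear_combination hzν + κ * h2 - ν * hcK
  have hint : IsIntegral ℤ (κ * σ - c * ν) :=
    (hκ.mul hσ).sub ((isIntegral_algebraMap (x := c)).mul hν)
  obtain ⟨⟨a, ha⟩, -⟩ := nt hint
  have eκ : 0 < emb κ := by
    unfold emb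
    have h3 : (0 : ℚ) < κ.re := by
      have h4 : (1 : ℚ) ≤ z := by exact_mod_cast hz1
      have h5 : (2 : ℚ) ≤ m := by exact_mod_cast hm
      have h6 : (1 : ℚ) < (m + 1) ^ 2 * z := by nlinarith
      linarith
    have h3' : (0 : ℝ) < κ.re := by exact_mod_cast h3
    have h4 : (0 : ℚ) ≤ κ.im := by
      rw [hκd]
      positivity
    have h4' : (0 : ℝ) ≤ κ.im := by exact_mod_cast h4
    have h5 : 0 ≤ (κ.im : ℝ) * √(D : ℝ) := mul_nonneg h4' (Real.sqrt_nonneg _)
    linarith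
  have eμ : 0 < emb μ := by
    have : emb μ = 1 + (m + 1) * emb κ := by
      unfold emb
      rw [μre, μim]
      push_cast
      ring
    rw [this]
    positivity
  have eν : 0 < emb ν := by
    have h3 := congrArg emb hzν
    rw [emb_mul, emb_mul, emb_pow] at h3
    have h4 : emb (z : K D) = z := by
      unfold emb
      simp
    rw [h4] at h3
    have h5 : 0 < emb κ * emb μ ^ (2 * k) := mul_pos eκ (pow_pos eμ _)
    rw [← h3] at h5
    exact pos_of_mul_pos_right h5 (Nat.cast_nonneg z)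
  refine ⟨μ, ν, hμ, hν, nμ, nν, eμ, eν, (m + 1) ^ 3 * m ^ (2 * k - 1) - 1, (m + 1) * z + a, ?_, ?_⟩
  · rw [μre]
    have hz' : (z : ℚ) = m * m ^ (2 * k - 1) := by
      rw [hz, ← pow_succ']
      push_cast
      congr 1
      omega
    push_cast
    linear_combination ((m : ℚ) + 1) * hre + ((m : ℚ) + 1) ^ 3 * hz'
  · have h3 : ν.re = κ.re + (m + 1) * (κ * σ - c * ν).re := by
      conv_lhs => rw [hrel]
      simp [QuadraticAlgebra.re_one, QuadraticAlgebra.im_one]
    rw [h3]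
    push_cast
    linear_combination hre + ((m : ℚ) + 1) * ha

end Pool.Agent.KS6_42.BF
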