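import Pool.Agent.KS6_42.BF.Base

/-!
# A criterion for indecomposability
-/

namespace Pool.Agent.KS6_42.BF

variable {D : ℕ}

lemma totPos_mul_star {y z : K D} (hy : TotPos y) (hz : TotPos z) : TotPos (y * star z) := by
  rw [totPos_iff] at *
  obtain ⟨a1, a2, a3⟩ := hy
  obtain ⟨b1, b2, b3⟩ := hz
  refine ⟨a1.mul (star_int b1), ?_, ?_⟩
  · rw [emb_mul]
    exact mul_pos a2 b3
  · rw [star_mul, star_star, emb_mul]
    exact mul_pos b2 a3

lemma norm_pos' {x : K D} (h : TotPos x) : 0 < QuadraticAlgebra.norm x := by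
  obtain ⟨_, h2, h3⟩ := (totPos_iff x).mp h
  have h4 : (0 : ℝ) < ((QuadraticAlgebra.norm x : ℚ) : ℝ) := by
    rw [← emb_norm]
    exact mul_pos h2 h3
  exact_mod_cast h4

lemma re_pos' {x : K D} (h : TotPos x) : 0 < x.re := by
  obtain ⟨_, h2, h3⟩ := (totPos_iff x).mp h
  rw [emb_star] at h3
  unfold emb at h2
  have h4 : (0 : ℝ) < (x.re : ℝ) := by linarith
  exact_mod_cast h4

/-- a primitive totally positive integer of small norm is indecomposable -/
lemma indec_of (hD : Squarefree D) {α : K D} (hα : TotPos α) (N : ℕ)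
    (hN : QuadraticAlgebra.norm α = N) (hND : N ^ 2 ≤ D)
    (hprim : ∀ k : ℕ, 2 ≤ k → ∀ δ : K D, IsIntegral ℤ δ → α ≠ k * δ) : Indec α := by
  refine ⟨hα, ?_⟩
  rintro ⟨y, z, hy, hz, h⟩
  have hγ := totPos_mul_star hy hz
  obtain ⟨-, ny, hny⟩ := nt hy.1
  obtain ⟨-, nz, hnz⟩ := nt hz.1
  have hny0 : 0 < ny := by
    have := norm_pos' hy
    rw [hny] at this
    exact_mod_cast this
  have hnz0 : 0 < nz := by
    have := norm_pos' hz
    rw [hnz] at this
    exact_mod_cast this
  have key : QuadraticAlgebra.norm α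
      = QuadraticAlgebra.norm y + QuadraticAlgebra.norm z + 2 * (y * star z).re := by
    rw [h, norm_eq, norm_eq, norm_eq]
    simp
    ring
  by_cases him : (y * star z).im = 0
  · -- the quotient is rational
    obtain ⟨_, n, hn⟩ := nt hγ.1
    rw [norm_eq, him] at hn
    obtain ⟨c, hc⟩ : ∃ c : ℤ, (c : ℚ) = (y * star z).re :=
      IsIntegrallyClosed.exists_algebraMap_eq_of_isIntegral_pow (n := 2) (by norm_num)
        (by
          have : (y * star z).re ^ 2 = ((n : ℤ) : ℚ) := by
            rw [← hn]
            ring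
          rw [this]
          exact isIntegral_algebraMap)
    have hc0 : 0 < c := by
      have := re_pos' hγ
      rw [← hc] at this
      exact_mod_cast this
    lift nz to ℕ using hnz0.le
    lift c to ℕ using hc0.le
    have hγe : y * star z = ⟨c, 0⟩ := by
      ext
      · rw [← hc]
        simp
      · rw [him]
    have hzz : star z * z = ⟨nz, 0⟩ := by
      rw [mul_comm, mul_star, hnz]
      ext <;> simp
    have e0 : y * ⟨(nz : ℚ), 0⟩ = ⟨(c : ℚ), 0⟩ * z := by
      rw [← hzz, ← hγe]
      ring
    have e1 : (nz : ℚ) * y.re = c * z.re := by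
      have := congrArg QuadraticAlgebra.re e0
      simp at this
      linarith
    have e2 : (nz : ℚ) * y.im = c * z.im := by
      have := congrArg QuadraticAlgebra.im e0
      simp at this
      linarith
    obtain ⟨v, u, huv, hv, hu⟩ := Nat.exists_coprime nz c
    set g := Nat.gcd nz c with hg
    have hg0 : 0 < g := Nat.gcd_pos_of_pos_left _ (by omega)
    have hgq : (g : ℚ) ≠ 0 := by positivity
    have hv0 : 0 < v := by
      rcases Nat.eq_zero_or_pos v with h0 | h0
      · rw [h0, zero_mul] at hv
        omega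
      · exact h0
    have hu0 : 0 < u := by
      rcases Nat.eq_zero_or_pos u with h0 | h0
      · rw [h0, zero_mul] at hu
        omega
      · exact h0
    rw [hv, hu] at e1 e2
    push_cast at e1 e2
    have e3 : (v : ℚ) * y.re = u * z.re := mul_right_cancel₀ hgq (by linarith)
    have e4 : (v : ℚ) * y.im = u * z.im := mul_right_cancel₀ hgq (by linarith)
    have e5 : (v : K D) * y = u * z := by
      ext
      · simp
        linarith
      · simp
        linarith
    obtain ⟨t, s, hst⟩ := Nat.isCoprime_iff_coprime.mpr huv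
    have hst' : (t : K D) * v + s * u = 1 := by exact_mod_cast congrArg (Int.cast (R := K D)) hst
    have hδ : IsIntegral ℤ ((s : K D) * y + t * z) :=
      ((isIntegral_algebraMap (x := s)).mul hy.1).add ((isIntegral_algebraMap (x := t)).mul hz.1)
    refine hprim (u + v) (by omega) _ hδ ?_
    rw [h]
    push_cast
    linear_combination (-(y + z)) * hst' + (t - s) * e5
  · obtain ⟨a, ha, ha0, haD⟩ := trace_large hD hγ him
    rw [hN, hny, hnz, ha] at key
    have h1 : (N : ℤ) = ny + nz + a := by exact_mod_cast key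
    have h2 : ((N : ℤ)) ^ 2 ≤ D := by exact_mod_cast hND
    nlinarith

end Pool.Agent.KS6_42.BF
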